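import Pool.Agent.Helper438.Sph.Main
import Pool.Agent.Helper438.Sph.Dim

set_option autoImplicit false

namespace Pool.Agent.Results.MP_ef93d4_co.DimPlusThree

open Pool.Agent.Helper438.Sph

theorem lower_four (n : ℕ) (h : (orthGraph 4).Colorable n) : 4 + 3 ≤ n := by
  by_contra hn
  exact not_six (h.mono (by omega))

/-- For every `d ≥ 4`, the graph on the unit sphere of `ℝ^d` in which two points are adjacent when
their distance is exactly `√2` has chromatic number at least `d + 3`. -/
theorem result (d : ℕ) (hd : 4 ≤ d) : ((d + 3 : ℕ) : ℕ∞) ≤ (orthGraph d).chromaticNumber := by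
  rw [SimpleGraph.chromaticNumber]
  refine le_iInf fun n => le_iInf fun hn => ?_
  exact_mod_cast lower_of_four lower_four d hd n hn

end Pool.Agent.Results.MP_ef93d4_co.DimPlusThree
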