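import Pool.Agent.Helper144.Sph.C3
import Pool.Agent.Helper144.Sph.C5
import Pool.Agent.Helper144.Sph.Join

set_option autoImplicit false

namespace Pool.Agent.Results.MP_ef93d4_co.LowerBoundTable

open Pool.Agent.Helper144.Sph

/-- The lower bound in dimension `d = 4 q + r`, `0 ≤ r < 4`, is `6 q + extra r`. -/
def extra (r : ℕ) : ℕ :=
  if r = 1 then 1
  else if r = 2 then 2
  else if r = 3 then 4
  else 0

theorem L_three : L 3 4 := by
  intro n h
  by_contra hn
  exact not_colorable3 (le_refl 3) C3.vs_len C3.ok C3.edges_ok C3.basis_ok C3.vs_ne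
    (h.mono (by omega))

theorem L_four : L 4 6 := by
  intro n h
  by_contra hn
  exact not_colorable (by norm_num) C5.vs_len C5.ok C5.edges_ok C5.basis_ok C5.vs_ne
    (h.mono (by omega))

theorem L_small (r : ℕ) (hr : r < 4) : L r (extra r) := by
  have h1 := L.one
  have h2 : L 2 2 := L.add h1 h1
  interval_cases r
  · exact L.zero 0
  · exact h1
  · exact h2
  · exact L_three

/-- For every `d`, the graph on the unit sphere of `ℝ^d` in which two points are adjacent when their
distance is exactly `√2` has chromatic number at least `6 * (d / 4) + extra (d % 4)`, where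
`extra` takes the values `0, 1, 2, 4` at `0, 1, 2, 3`. -/
theorem result (d : ℕ) :
    ((6 * (d / 4) + extra (d % 4) : ℕ) : ℕ∞) ≤ (orthGraph d).chromaticNumber := by
  rw [SimpleGraph.chromaticNumber]
  refine le_iInf fun n => le_iInf fun hn => ?_
  have h := L.add (L.mul L_four (d / 4)) (L_small (d % 4) (Nat.mod_lt _ (by norm_num)))
  rw [Nat.div_add_mod] at h
  exact_mod_cast h n hn

end Pool.Agent.Results.MP_ef93d4_co.LowerBoundTable
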